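import Pool.Agent.J6H36.PF.Main2

/-!
# Products of finite fields: zero or of dimension at least the continuum
-/

set_option autoImplicit false

universe u

namespace Pool.Agent.J6H36.PF

open Cardinal Pool.Agent.J6H36.BSV

/-- the codes of the initial segments of a 0-1-sequence -/
def code (f : ℕ → Bool) (n : ℕ) : ℕ := Encodable.encode (List.ofFn fun k : Fin n => f k)

theorem code_length {f g : ℕ → Bool} {n m : ℕ} (h : code f n = code g m) : n = m := by
  have h1 := Encodable.encode_injective h
  have h2 := congrArg List.length h1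
  simpa using h2

theorem code_inj (f : ℕ → Bool) : Function.Injective (code f) := fun _ _ h => code_length h

theorem code_ne {f g : ℕ → Bool} (h : f ≠ g) : {n | code f n ∈ Set.range (code g)}.Finite := by
  obtain ⟨k, hk⟩ := Function.ne_iff.mp h
  refine Set.Finite.subset (Set.finite_le_nat k) ?_
  rintro n ⟨m, hm⟩
  have h1 : m = n := code_length hm
  subst h1
  by_contra hn
  have hn' : k < m := not_le.mp hn
  have h2 := Encodable.encode_injective hm
  rw [List.ofFn_inj] at h2
  exact hk (congrFun h2 ⟨k, hn'⟩).symm

variable (T : Theory3.{u}) (i : ℤ) (n : ℕ) {ι : Type u} (F : ι → Type u)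

/-- extension of a class by zero -/
theorem ext_zero [∀ j, CommRing (F j)] (A : Set ι) (x : T.H i n (∀ j : A, F j)) :
    ∃ z : T.H i n (∀ j, F j), T.map i n (resA F A) z = x ∧ T.map i n (resA F Aᶜ) z = 0 := by
  obtain ⟨w, h1, h2⟩ := T.prod_surj i n (∀ j : A, F j) (∀ j : (Aᶜ : Set ι), F j) x 0
  refine ⟨T.map i n (splitA F A) w, ?_, ?_⟩
  · rw [← T.map_comp, ← h1]
    congr 2
    exact RingHom.ext fun p => res_splitA F A p
  · rw [← T.map_comp, ← h2]
    congr 2
    exact RingHom.ext fun p => res_splitA' F A p

/-- a homomorphism which kills the families that vanish on `C` factors over the restriction to `C` -/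
theorem factorA [∀ j, CommRing (F j)] {K : Type u} [CommRing K] (C : Set ι)
    (q : (∀ j, F j) →+* K) (hq : ∀ r : ∀ j, F j, (∀ j ∈ C, r j = 0) → q r = 0) :
    ∃ q' : (∀ j : C, F j) →+* K, q'.comp (resA F C) = q := by
  classical
  let inv : (∀ j : C, F j) → (∀ j, F j) := fun r j => if h : j ∈ C then r ⟨j, h⟩ else 0
  have hinv : Function.RightInverse inv (resA F C) := by
    intro r
    funext j
    simp [inv, resA, j.2]
  have hker : RingHom.ker (resA F C) ≤ RingHom.ker q := by
    intro r hr
    apply hq
    intro j hj
    exact congrFun (RingHom.mem_ker.mp hr) ⟨j, hj⟩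
  refine ⟨(resA F C).liftOfRightInverse inv hinv ⟨q, hker⟩, ?_⟩
  exact RingHom.ext fun r => (resA F C).liftOfRightInverse_comp_apply inv hinv ⟨q, hker⟩ r

/-- a nonzero class over some field gives a family of continuum many independent classes over the product -/
theorem zero_of_rank (hSeq : S_SEQ.{u}) (hU : S_ULT.{u}) [∀ j, Field (F j)]
    (hr : Module.rank ℚ (T.H i n (∀ j, F j)) < 𝔠)
    (E : Type u) [Field E]
    (hrich : ∀ t : Finset E, ∀ s : Subring.closure (t : Set E), s ≠ 0 → ∀ J : Finset ι,
      ∃ j ∉ J, ∃ φ : Subring.closure (t : Set E) →+* F j, φ s ≠ 0) (x : T.H i n E) : x = 0 := by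
  classical
  by_contra hx0
  apply absurd hr
  rw [not_lt]
  obtain ⟨t, y, hy⟩ := T.lift i n E x
  have hc : Countable (Subring.closure (t : Set E)) := Pool.Agent.J6H36.LF.countable_closure t
  obtain ⟨A, φ, hA, hφ⟩ := hSeq (Subring.closure (t : Set E)) ι F (hrich t)
  have : Infinite A := hA.to_subtype
  let a : ℕ ↪ A := Infinite.natEmbedding A
  -- a map to a field which is injective on `S` does not kill `y`
  have key : ∀ (K : Type u) [Field K] (g : Subring.closure (t : Set E) →+* K),
      Function.Injective g → T.map i n g y ≠ 0 := by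
    intro K _ g hg hgy
    let G : FractionRing (Subring.closure (t : Set E)) →+* K := IsFractionRing.lift hg
    have hv : Function.Injective (Subring.closure (t : Set E)).subtype := Subtype.val_injective
    let V : FractionRing (Subring.closure (t : Set E)) →+* E := IsFractionRing.lift hv
    have h1 : T.map i n G (T.map i n
        (algebraMap _ (FractionRing (Subring.closure (t : Set E)))) y) = 0 := by
      rw [← T.map_comp]
      have h2 : G.comp (algebraMap _ (FractionRing (Subring.closure (t : Set E)))) = g :=
        RingHom.ext fun s => IsFractionRing.lift_algebraMap hg s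
      rw [h2]
      exact hgy
    have h2 : T.map i n (algebraMap _ (FractionRing (Subring.closure (t : Set E)))) y = 0 := by
      apply map_inj T.toTheory2 i n G
      rw [h1, map_zero]
    have h3 : V.comp (algebraMap _ (FractionRing (Subring.closure (t : Set E)))) =
        (Subring.closure (t : Set E)).subtype :=
      RingHom.ext fun s => IsFractionRing.lift_algebraMap hv s
    apply hx0
    rw [← hy, ← h3, T.map_comp, h2, map_zero]
  -- the almost disjoint sets
  let pos : (ℕ → Bool) → ℕ → ι := fun f k => (a (code f k) : ι)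
  let B : (ℕ → Bool) → Set ι := fun f => Set.range (pos f)
  have hpos : ∀ f, Function.Injective (pos f) := fun f k l h =>
    code_inj f (a.injective (Subtype.val_injective h))
  have hBA : ∀ f, B f ⊆ A := by
    rintro f _ ⟨k, rfl⟩
    exact (a (code f k)).2
  let Φ : ∀ f, Subring.closure (t : Set E) →+* (∀ j : B f, F j) :=
    fun f => RingHom.pi fun j => φ ⟨j, hBA f j.2⟩
  choose z hz1 hz2 using fun f => ext_zero T i n F (B f) (T.map i n (Φ f) y)
  let U : (ℕ → Bool) → Ultrafilter ι := fun f => (Filter.hyperfilter ℕ).map (pos f)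
  have hUB : ∀ f, B f ∈ U f := fun f => Filter.mem_of_superset (by
    change pos f ⁻¹' (B f) ∈ (Filter.hyperfilter ℕ : Filter ℕ)
    have h1 : pos f ⁻¹' (B f) = Set.univ := Set.eq_univ_of_forall fun k => ⟨k, rfl⟩
    rw [h1]
    exact Filter.univ_mem) (le_refl (B f))
  have hUC : ∀ f g, f ≠ g → (B g)ᶜ ∈ U f := by
    intro f g hfg
    change pos f ⁻¹' (B g)ᶜ ∈ (Filter.hyperfilter ℕ : Filter ℕ)
    rw [Set.preimage_compl]
    refine Set.Finite.compl_mem_hyperfilter (Set.Finite.subset (code_ne hfg) ?_)
    rintro k ⟨l, hl⟩
    exact ⟨l, a.injective (Subtype.val_injective hl)⟩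
  have hli : LinearIndependent ℚ z := by
    rw [linearIndependent_iff']
    intro s c hc' f hf
    obtain ⟨K, _, ⟨e⟩⟩ := exists_field F (U f : Filter ι) (hU ι F (U f)).1
    let q : (∀ j, F j) →+* K := (e : KU F (U f) →+* K).comp (Ideal.Quotient.mk (IU F (U f)))
    have hq0 : ∀ r : ∀ j, F j, q r = 0 ↔ ∀ᶠ j in (U f : Filter ι), r j = 0 := by
      intro r
      constructor
      · intro h
        have h0' : Ideal.Quotient.mk (IU F (U f)) r = 0 := e.injective (h.trans (map_zero e).symm)
        exact Ideal.Quotient.eq_zero_iff_mem.mp h0'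
      · intro h
        have h1 : Ideal.Quotient.mk (IU F (U f)) r = 0 := Ideal.Quotient.eq_zero_iff_mem.mpr h
        change e (Ideal.Quotient.mk (IU F (U f)) r) = 0
        rw [h1, map_zero]
    clear_value q
    have hqC : ∀ C ∈ (U f : Filter ι), ∃ q' : (∀ j : C, F j) →+* K, q'.comp (resA F C) = q := by
      intro C hC
      refine factorA F C q fun r hr => (hq0 r).mpr ?_
      filter_upwards [hC] with j hj using hr j hj
    -- the other classes vanish
    have hother : ∀ g, g ≠ f → T.map i n q (z g) = 0 := by
      intro g hg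
      obtain ⟨q', hq'⟩ := hqC (B g)ᶜ (hUC f g hg.symm)
      rw [← hq', T.map_comp, hz2]
      exact LinearMap.map_zero _
    have hself : T.map i n q (z f) ≠ 0 := by
      obtain ⟨q', hq'⟩ := hqC (B f) (hUB f)
      rw [← hq', T.map_comp, hz1, ← T.map_comp]
      apply key
      rw [injective_iff_map_eq_zero]
      intro w hw
      by_contra hne
      -- lift the family `Φ f w` to the product
      let r : ∀ j, F j := fun j => if h : j ∈ A then φ ⟨j, h⟩ w else 0
      have hr1 : resA F (B f) r = Φ f w := by
        funext j
        have hj := hBA f j.2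
        simp [resA, r, Φ, hj]
      have h1 : q r = 0 := by
        rw [← hq']
        change q' (resA F (B f) r) = 0
        rw [hr1]
        exact hw
      have h2 := (hq0 r).mp h1
      have h3 : {k : ℕ | φ (a (code f k)) w = 0} ∈ (Filter.hyperfilter ℕ : Filter ℕ) := by
        have h4 : pos f ⁻¹' {j | r j = 0} ∈ (Filter.hyperfilter ℕ : Filter ℕ) := h2
        refine Filter.mem_of_superset h4 ?_
        intro k hk
        have h5 : r (pos f k) = 0 := hk
        have h6 : (a (code f k) : ι) ∈ A := (a (code f k)).2
        change φ (a (code f k)) w = 0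
        have h7 : r (pos f k) = φ ⟨(a (code f k) : ι), h6⟩ w := dif_pos h6
        rw [h7] at h5
        exact h5
      refine Set.Finite.notMem_hyperfilter ?_ h3
      have h4 := hφ w hne
      exact Set.Finite.preimage (f := fun k => a (code f k))
        (Function.Injective.injOn (fun k l h => code_inj f (a.injective h))) h4
    have h5 := congrArg (T.map i n q) hc'
    rw [map_sum, LinearMap.map_zero, Finset.sum_eq_single f] at h5
    · rw [map_smul] at h5
      exact (smul_eq_zero.mp h5).resolve_right hself
    · intro g _ hg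
      rw [map_smul, hother g hg, smul_zero]
    · intro h
      exact absurd hf h
  have h6 := hli.cardinal_lift_le_rank
  have h7 : #(ℕ → Bool) = 𝔠 := by simp
  rw [h7] at h6
  simpa using h6

end Pool.Agent.J6H36.PF
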