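import Pool.Agent.J6H36.PF.Stm
import Pool.Agent.J6H36.BSV.Main

/-!
# Products of finite fields
-/

set_option autoImplicit false

universe u

namespace Pool.Agent.J6H36.PF

open Cardinal Pool.Agent.J6H36.BSV

/-- A theory of rational motivic cohomology of commutative rings which is additive for products of two rings. -/
structure Theory3 extends Theory2.{u} where
  /-- a class over a product which vanishes over both factors vanishes -/
  prod_inj : ∀ (i : ℤ) (n : ℕ) (R S : Type u) [CommRing R] [CommRing S] (x : H i n (R × S)),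
    map i n (RingHom.fst R S) x = 0 → map i n (RingHom.snd R S) x = 0 → x = 0
  /-- every pair of classes over the factors comes from the product -/
  prod_surj : ∀ (i : ℤ) (n : ℕ) (R S : Type u) [CommRing R] [CommRing S] (x : H i n R) (y : H i n S),
    ∃ z : H i n (R × S), map i n (RingHom.fst R S) z = x ∧ map i n (RingHom.snd R S) z = y

section glue

variable (T : Theory3.{u}) (i : ℤ) (n : ℕ) {ι : Type u} (F : ι → Type u) [∀ j, CommRing (F j)]

/-- the decomposition of a product over a set and its complement -/
noncomputable def splitA (A : Set ι) : ((∀ j : A, F j) × (∀ j : (Aᶜ : Set ι), F j)) →+* (∀ j, F j) := by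
  classical
  exact
  { toFun := fun p j => if h : j ∈ A then p.1 ⟨j, h⟩ else p.2 ⟨j, h⟩
    map_one' := by
      funext j
      by_cases h : j ∈ A
      · simp [h]
      · simp [h]
    map_mul' := fun a b => by
      funext j
      by_cases h : j ∈ A
      · simp [h]
      · simp [h]
    map_zero' := by
      funext j
      by_cases h : j ∈ A
      · simp [h]
      · simp [h]
    map_add' := fun a b => by
      funext j
      by_cases h : j ∈ A
      · simp [h]
      · simp [h] }

theorem splitA_res (A : Set ι) (r : ∀ j, F j) : splitA F A (resA F A r, resA F Aᶜ r) = r := by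
  classical
  funext j
  by_cases h : j ∈ A
  · simp [splitA, resA, h]
  · simp [splitA, resA, h]

theorem res_splitA (A : Set ι) (p : (∀ j : A, F j) × (∀ j : (Aᶜ : Set ι), F j)) :
    resA F A (splitA F A p) = p.1 := by
  classical
  funext j
  simp [splitA, resA, j.2]

theorem res_splitA' (A : Set ι) (p : (∀ j : A, F j) × (∀ j : (Aᶜ : Set ι), F j)) :
    resA F Aᶜ (splitA F A p) = p.2 := by
  classical
  funext j
  have h : (j : ι) ∉ A := j.2
  simp [splitA, resA, h]

/-- the restriction is surjective on classes -/
theorem res_surj (A : Set ι) (x : T.H i n (∀ j : A, F j)) :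
    ∃ y : T.H i n (∀ j, F j), T.map i n (resA F A) y = x := by
  obtain ⟨y, hy, -⟩ := T.prod_surj i n (∀ j : A, F j) (∀ j : (Aᶜ : Set ι), F j) x 0
  refine ⟨T.map i n (splitA F A) y, ?_⟩
  rw [← T.map_comp, ← hy]
  congr 2
  exact RingHom.ext fun p => res_splitA F A p

/-- a class which vanishes over `A` and its complement vanishes -/
theorem zero_of_res (A : Set ι) (x : T.H i n (∀ j, F j)) (h1 : T.map i n (resA F A) x = 0)
    (h2 : T.map i n (resA F Aᶜ) x = 0) : x = 0 := by
  let g : (∀ j, F j) →+* (∀ j : A, F j) × (∀ j : (Aᶜ : Set ι), F j) :=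
    (resA F A).prod (resA F Aᶜ)
  have h3 : T.map i n g x = 0 := by
    apply T.prod_inj
    · rw [← T.map_comp]
      exact h1
    · rw [← T.map_comp]
      exact h2
  have h4 : T.map i n (splitA F A) (T.map i n g x) = x := by
    rw [← T.map_comp]
    have h5 : (splitA F A).comp g = RingHom.id _ := RingHom.ext fun r => splitA_res F A r
    rw [h5, T.map_id]
  rw [← h4, h3, map_zero]

/-- restriction in two steps -/
theorem res_mono {A B : Set ι} (h : A ⊆ B) (x : T.H i n (∀ j, F j))
    (hx : T.map i n (resA F B) x = 0) : T.map i n (resA F A) x = 0 := by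
  let g : (∀ j : B, F j) →+* (∀ j : A, F j) :=
    { toFun := fun r j => r ⟨j, h j.2⟩
      map_one' := rfl
      map_mul' := fun _ _ => rfl
      map_zero' := rfl
      map_add' := fun _ _ => rfl }
  have h1 : T.map i n (resA F A) x = T.map i n g (T.map i n (resA F B) x) := by
    rw [← T.map_comp]
    rfl
  rw [h1, hx, map_zero]

/-- vanishing over two sets implies vanishing over the union -/
theorem res_union {A B : Set ι} (x : T.H i n (∀ j, F j))
    (hA : T.map i n (resA F A) x = 0) (hB : T.map i n (resA F B) x = 0) :
    T.map i n (resA F (A ∪ B)) x = 0 := by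
  classical
  -- the class over `A ∪ B`, split along `A`
  let F' : (A ∪ B : Set ι) → Type u := fun j => F j
  let A' : Set (A ∪ B : Set ι) := {j | (j : ι) ∈ A}
  apply zero_of_res T i n F' A'
  · let g : (∀ j : A, F j) →+* (∀ j : A', F' j) :=
      { toFun := fun r j => r ⟨(j : (A ∪ B : Set ι)), j.2⟩
        map_one' := rfl
        map_mul' := fun _ _ => rfl
        map_zero' := rfl
        map_add' := fun _ _ => rfl }
    have h1 : T.map i n (resA F' A') (T.map i n (resA F (A ∪ B)) x) =
        T.map i n g (T.map i n (resA F A) x) := by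
      rw [← T.map_comp, ← T.map_comp]
      rfl
    rw [h1, hA, map_zero]
  · have hmem : ∀ j : (A'ᶜ : Set (A ∪ B : Set ι)), ((j : (A ∪ B : Set ι)) : ι) ∈ B := by
      rintro ⟨⟨j, hj⟩, hj'⟩
      rcases hj with hj | hj
      · exact absurd hj hj'
      · exact hj
    let g : (∀ j : B, F j) →+* (∀ j : (A'ᶜ : Set (A ∪ B : Set ι)), F' j) :=
      { toFun := fun r j => r ⟨(j : (A ∪ B : Set ι)), hmem j⟩
        map_one' := rfl
        map_mul' := fun _ _ => rfl
        map_zero' := rfl
        map_add' := fun _ _ => rfl }
    have h1 : T.map i n (resA F' A'ᶜ) (T.map i n (resA F (A ∪ B)) x) =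
        T.map i n g (T.map i n (resA F B) x) := by
      rw [← T.map_comp, ← T.map_comp]
      rfl
    rw [h1, hB, map_zero]

theorem res_empty (x : T.H i n (∀ j, F j)) : T.map i n (resA F ∅) x = 0 := by
  -- the zero ring `Z`: the two projections of `Z × Z` are equal
  let Z : Type u := ∀ j : (∅ : Set ι), F j
  have hs : Subsingleton Z := ⟨fun a b => funext fun j => absurd j.2 (Set.notMem_empty _)⟩
  have h2 : ∀ z : T.H i n Z, z = 0 := by
    intro z
    obtain ⟨w, h1, h2⟩ := T.prod_surj i n Z Z z 0
    have h3 : RingHom.fst Z Z = RingHom.snd Z Z := RingHom.ext fun p => Subsingleton.elim _ _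
    rw [← h1, h3, h2]
  exact h2 _

/-- The glueing: if all images in the ultraproducts vanish, the class vanishes. -/
theorem glue (hL : S_LOC.{u}) (x : T.H i n (∀ j, F j))
    (h : ∀ U : Ultrafilter ι, T.map i n (Ideal.Quotient.mk (IU F U)) x = 0) : x = 0 := by
  classical
  by_contra hx
  -- the sets over which `x` does not vanish on the complement form a filter
  let Fl : Filter ι :=
    { sets := {A | T.map i n (resA F Aᶜ) x = 0}
      univ_sets := by
        change T.map i n (resA F (Set.univ)ᶜ) x = 0
        rw [Set.compl_univ]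
        exact res_empty T i n F x
      sets_of_superset := by
        intro A B hA hAB
        exact res_mono T i n F (Set.compl_subset_compl.mpr hAB) x hA
      inter_sets := by
        intro A B hA hB
        change T.map i n (resA F (A ∩ B)ᶜ) x = 0
        rw [Set.compl_inter]
        exact res_union T i n F x hA hB }
  have hne : Fl.NeBot := by
    rw [Filter.neBot_iff]
    intro hbot
    have h1 : (∅ : Set ι) ∈ Fl := by rw [hbot]; exact Filter.mem_bot
    have h2 : T.map i n (resA F (∅ : Set ι)ᶜ) x = 0 := h1
    rw [Set.compl_empty] at h2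
    apply hx
    refine zero_of_res T i n F Set.univ x h2 ?_
    rw [Set.compl_univ]
    exact res_empty T i n F x
  obtain ⟨A, hA, hA0⟩ := hL T.toTheory i n ι F (Ultrafilter.of Fl) x (h _)
  have h1 : Aᶜ ∈ Fl := by
    change T.map i n (resA F Aᶜᶜ) x = 0
    rw [compl_compl]
    exact hA0
  have h2 : Aᶜ ∈ (Ultrafilter.of Fl : Filter ι) := Ultrafilter.of_le Fl h1
  have h3 : (∅ : Set ι) ∈ (Ultrafilter.of Fl : Filter ι) := by
    have := Filter.inter_mem hA h2
    rwa [Set.inter_compl_self] at this
  exact (Ultrafilter.of Fl).neBot.ne (Filter.empty_mem_iff_bot.mp h3)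

end glue

end Pool.Agent.J6H36.PF
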