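import Pool.Agent.J6H36.PF.Main
import Pool.Agent.J6H36.LF.Cor

/-!
# Products of finite fields and the vanishing for fields
-/

set_option autoImplicit false

universe u

namespace Pool.Agent.J6H36.PF

open Cardinal Pool.Agent.J6H36.BSV

/-- the ultraproduct as a field -/
theorem exists_field {ι : Type u} (F : ι → Type u) [∀ j, CommRing (F j)] (U : Filter ι)
    (hm : (IU F U).IsMaximal) : ∃ (K : Type u) (_ : Field K), Nonempty (KU F U ≃+* K) :=
  ⟨KU F U, Ideal.Quotient.field (IU F U), ⟨RingEquiv.refl _⟩⟩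

/-- the group of a field vanishes if the group of a product vanishes -/
theorem zero_of_prod (hSeq : S_SEQ.{u}) (hU : S_ULT.{u}) (T : Theory3.{u}) (i : ℤ) (n : ℕ)
    {ι : Type u} (F : ι → Type u) [∀ j, Field (F j)] (h0 : ∀ x : T.H i n (∀ j, F j), x = 0)
    (E : Type u) [Field E]
    (hrich : ∀ t : Finset E, ∀ s : Subring.closure (t : Set E), s ≠ 0 → ∀ J : Finset ι,
      ∃ j ∉ J, ∃ φ : Subring.closure (t : Set E) →+* F j, φ s ≠ 0) (x : T.H i n E) : x = 0 := by
  classical
  obtain ⟨t, y, hy⟩ := T.lift i n E x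
  have hc : Countable (Subring.closure (t : Set E)) := Pool.Agent.J6H36.LF.countable_closure t
  obtain ⟨A, φ, hA, hφ⟩ := hSeq (Subring.closure (t : Set E)) ι F (hrich t)
  let Φ : Subring.closure (t : Set E) →+* (∀ j : A, F j) := RingHom.pi φ
  have hΦ : T.map i n Φ y = 0 := by
    obtain ⟨z, hz⟩ := res_surj T i n F A (T.map i n Φ y)
    rw [← hz, h0 z, map_zero]
  have : Infinite A := hA.to_subtype
  let F' : A → Type u := fun j => F j
  let U : Ultrafilter A := Filter.hyperfilter A
  have hm : (IU F' U).IsMaximal := (hU A F' U).1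
  obtain ⟨K, _, ⟨e⟩⟩ := exists_field F' U hm
  let q : (∀ j : A, F j) →+* K := (e : KU F' U →+* K).comp (Ideal.Quotient.mk (IU F' U))
  let g : Subring.closure (t : Set E) →+* K := q.comp Φ
  have hg : Function.Injective g := by
    rw [injective_iff_map_eq_zero]
    intro s hs
    by_contra hne
    have h0' : Ideal.Quotient.mk (IU F' U) (Φ s) = 0 := e.injective (hs.trans (map_zero e).symm)
    have h1 : Φ s ∈ IU F' U := Ideal.Quotient.eq_zero_iff_mem.mp h0'
    have h2 : {j : A | φ j s = 0} ∈ (U : Filter A) := h1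
    exact Set.Finite.notMem_hyperfilter (hφ s hne) h2
  have hgy : T.map i n g y = 0 := by
    have h5 : T.map i n g y = T.map i n q (T.map i n Φ y) := T.map_comp i n Φ q y
    rw [h5, hΦ]
    exact LinearMap.map_zero _
  clear_value g q
  let G : FractionRing (Subring.closure (t : Set E)) →+* K := IsFractionRing.lift hg
  have hv : Function.Injective (Subring.closure (t : Set E)).subtype := Subtype.val_injective
  let V : FractionRing (Subring.closure (t : Set E)) →+* E := IsFractionRing.lift hv
  have h1 : T.map i n G (T.map i n (algebraMap _ (FractionRing (Subring.closure (t : Set E)))) y) =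
      0 := by
    rw [← T.map_comp]
    have h2 : G.comp (algebraMap _ (FractionRing (Subring.closure (t : Set E)))) = g :=
      RingHom.ext fun s => IsFractionRing.lift_algebraMap hg s
    rw [h2]
    exact hgy
  have h2 : T.map i n (algebraMap _ (FractionRing (Subring.closure (t : Set E)))) y = 0 := by
    apply map_inj T.toTheory2 i n G
    rw [h1, map_zero]
  have h3 : V.comp (algebraMap _ (FractionRing (Subring.closure (t : Set E)))) =
      (Subring.closure (t : Set E)).subtype :=
    RingHom.ext fun s => IsFractionRing.lift_algebraMap hv s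
  rw [← hy, ← h3, T.map_comp, h2, map_zero]

/-- the group of a finite field vanishes -/
theorem finite_zero (T : Theory3.{u}) (i : ℤ) (n : ℕ) (hi : i ≤ 0) (hn : 1 ≤ n) (E : Type u)
    [Field E] [Finite E] (x : T.H i n E) : x = 0 := by
  obtain ⟨p, hp⟩ := CharP.exists E
  have hpr : p.Prime := CharP.char_is_prime E p
  have : Fact p.Prime := ⟨hpr⟩
  let _ : Algebra (ZMod p) E := ZMod.algebra E p
  have : Module.Finite (ZMod p) E := Module.Finite.of_finite
  have : Algebra.IsAlgebraic (ZMod p) E := Algebra.IsAlgebraic.of_finite _ _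
  have hbot : (⊥ : Subfield (ZMod p)) = ⊤ := by
    rw [Subfield.bot_eq_of_zMod_algebra p, eq_top_iff]
    intro z _
    exact ⟨z, by simp⟩
  exact T.base i n (ZMod p) E hbot hi hn x

/-- The glueing for fields. -/
theorem zero_of_ultra (hL : S_LOC.{u}) (hU : S_ULT.{u}) (T : Theory3.{u}) (i : ℤ) (n : ℕ)
    {ι : Type u} (F : ι → Type u) [∀ j, Field (F j)]
    (h : ∀ (U : Ultrafilter ι) (K : Type u) [Field K], (KU F U ≃+* K) → ∀ x : T.H i n K, x = 0)
    (x : T.H i n (∀ j, F j)) : x = 0 := by
  refine glue T i n F hL x fun U => ?_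
  obtain ⟨K, _, ⟨e⟩⟩ := exists_field F (U : Filter ι) (hU ι F U).1
  have h1 : T.map i n (e : KU F U →+* K) (T.map i n (Ideal.Quotient.mk (IU F U)) x) = 0 :=
    h U K e _
  have h2 : T.map i n (e.symm : K →+* KU F U) (T.map i n (e : KU F U →+* K)
      (T.map i n (Ideal.Quotient.mk (IU F U)) x)) = T.map i n (Ideal.Quotient.mk (IU F U)) x := by
    rw [← T.map_comp i n (e : KU F U →+* K) (e.symm : K →+* KU F U)]
    have h3 : (e.symm : K →+* KU F U).comp (e : KU F U →+* K) = RingHom.id _ :=
      RingHom.ext fun z => e.symm_apply_apply z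
    rw [h3, T.map_id]
  rw [← h2, h1, map_zero]

end Pool.Agent.J6H36.PF
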