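import Pool.Agent.J6H36.PF.Cont

/-!
# The equivalences
-/

set_option autoImplicit false

universe u

namespace Pool.Agent.J6H36.PF

open Cardinal Pool.Agent.J6H36.BSV

theorem fin_type {E : Type u} [CommRing E] (t : Finset E) :
    Algebra.FiniteType ℤ (Subring.closure (t : Set E)) := by
  let f : MvPolynomial t ℤ →ₐ[ℤ] Subring.closure (t : Set E) :=
    MvPolynomial.aeval (fun z : t => ⟨(z : E), Subring.subset_closure z.2⟩)
  have hf : Function.Surjective f := by
    rintro ⟨x, hx⟩
    induction hx using Subring.closure_induction with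
    | mem x hx => exact ⟨MvPolynomial.X ⟨x, hx⟩, MvPolynomial.aeval_X _ _⟩
    | zero => exact ⟨0, map_zero f⟩
    | one => exact ⟨1, map_one f⟩
    | add x y hx hy h1 h2 =>
      obtain ⟨a, ha⟩ := h1
      obtain ⟨b, hb⟩ := h2
      exact ⟨a + b, by rw [map_add, ha, hb]; rfl⟩
    | neg x hx h1 =>
      obtain ⟨a, ha⟩ := h1
      exact ⟨-a, by rw [map_neg, ha]; rfl⟩
    | mul x y hx hy h1 h2 =>
      obtain ⟨a, ha⟩ := h1
      obtain ⟨b, hb⟩ := h2
      exact ⟨a * b, by rw [map_mul, ha, hb]; rfl⟩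
  exact Algebra.FiniteType.of_surjective f hf

/-- the vanishing over a product of finite fields in which all finite fields occur -/
theorem all_iff (hL : S_LOC.{u}) (hU : S_ULT.{u}) (hSeq : S_SEQ.{u}) (hRes : S_RES.{u})
    (hFam : S_FAM.{u}) (T : Theory3.{u}) (i : ℤ) (n : ℕ) {ι : Type u} (F : ι → Type u)
    [∀ j, Field (F j)]
    (hF : ∀ (E : Type u) [Field E] [Finite E], ∃ j, Nonempty (F j ≃+* E)) :
    ((∀ (E : Type u) [Field E] (x : T.H i n E), x = 0) → ∀ x : T.H i n (∀ j, F j), x = 0) ∧
    (Module.rank ℚ (T.H i n (∀ j, F j)) < 𝔠 → ∀ (E : Type u) [Field E] (x : T.H i n E), x = 0) := by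
  constructor
  · intro h x
    exact zero_of_ultra hL hU T i n F (fun U K _ _ y => h K y) x
  · intro h0 E _ x
    refine zero_of_rank T i n F hSeq hU h0 E ?_ x
    intro t s hs J
    have := fin_type t
    obtain ⟨E₀, _, _, φ, hφ⟩ := hRes (Subring.closure (t : Set E)) s hs
    obtain ⟨p, hp⟩ := CharP.exists E₀
    have : Fact p.Prime := ⟨CharP.char_is_prime E₀ p⟩
    obtain ⟨j, hj, ⟨g⟩⟩ := hFam p ι F (fun E _ _ _ => hF E) E₀ J
    exact ⟨j, hj, g.comp φ, fun h => hφ (g.injective (h.trans (map_zero g).symm))⟩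

/-- characteristic `p` -/
theorem char_iff (hL : S_LOC.{u}) (hU : S_ULT.{u}) (hSeq : S_SEQ.{u}) (hRes : S_RES.{u})
    (hFam : S_FAM.{u}) (T : Theory3.{u}) (i : ℤ) (n : ℕ) (p : ℕ) [Fact p.Prime] {ι : Type u}
    (F : ι → Type u) [∀ j, Field (F j)] [∀ j, CharP (F j) p]
    (hF : ∀ (E : Type u) [Field E] [Finite E] [CharP E p], ∃ j, Nonempty (F j ≃+* E)) :
    ((∀ (E : Type u) [Field E] [CharP E p] (x : T.H i n E), x = 0) →
      ∀ x : T.H i n (∀ j, F j), x = 0) ∧
    (Module.rank ℚ (T.H i n (∀ j, F j)) < 𝔠 →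
      ∀ (E : Type u) [Field E] [CharP E p] (x : T.H i n E), x = 0) := by
  constructor
  · intro h x
    refine zero_of_ultra hL hU T i n F (fun U K _ e y => ?_) x
    have h1 : (p : K) = 0 := by
      have h2 : ((p : ℕ) : KU F U) = 0 := by
        have h3 : ((p : ℕ) : ∀ j, F j) ∈ IU F U := by
          refine Filter.Eventually.of_forall fun j => ?_
          rw [Pi.natCast_apply]
          exact CharP.cast_eq_zero (F j) p
        rw [← map_natCast (Ideal.Quotient.mk (IU F U)) p]
        exact Ideal.Quotient.eq_zero_iff_mem.mpr h3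
      rw [← map_natCast e p, h2, map_zero]
    have : CharP K p := by
      have h2 : p.Prime := Fact.out
      exact (CharP.charP_iff_prime_eq_zero h2).mpr h1
    exact h K y
  · intro h0 E _ _ x
    refine zero_of_rank T i n F hSeq hU h0 E ?_ x
    intro t s hs J
    have := fin_type t
    obtain ⟨E₀, _, _, φ, hφ⟩ := hRes (Subring.closure (t : Set E)) s hs
    have h1 : (p : E₀) = 0 := by
      have h2 : ((p : ℕ) : Subring.closure (t : Set E)) = 0 := by
        apply Subtype.val_injective
        simp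
      rw [← map_natCast φ p, h2, map_zero]
    have : CharP E₀ p := (CharP.charP_iff_prime_eq_zero Fact.out).mpr h1
    obtain ⟨j, hj, ⟨g⟩⟩ := hFam p ι F hF E₀ J
    exact ⟨j, hj, g.comp φ, fun h => hφ (g.injective (h.trans (map_zero g).symm))⟩

/-- characteristic `0` -/
theorem zero_iff (hL : S_LOC.{u}) (hU : S_ULT.{u}) (hSeq : S_SEQ.{u}) (hResp : S_RESP.{u})
    (T : Theory3.{u}) (i : ℤ) (n : ℕ) (hi : i ≤ 0) (hn : 1 ≤ n) {ι : Type u}
    (F : ι → Type u) [∀ j, Field (F j)] [∀ j, Finite (F j)]
    (hF : ∀ p : ℕ, p.Prime → ∃ j, Nonempty (F j ≃+* ZMod p))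
    (hf : ∀ p : ℕ, p.Prime → {j | CharP (F j) p}.Finite) :
    ((∀ (E : Type u) [Field E] [CharZero E] (x : T.H i n E), x = 0) →
      ∀ x : T.H i n (∀ j, F j), x = 0) ∧
    (Module.rank ℚ (T.H i n (∀ j, F j)) < 𝔠 →
      ∀ (E : Type u) [Field E] [CharZero E] (x : T.H i n E), x = 0) := by
  classical
  constructor
  · intro h x
    refine zero_of_ultra hL hU T i n F (fun U K _ e y => ?_) x
    by_cases hpr : ∃ j, {j} ∈ U
    · obtain ⟨j, hj⟩ := hpr
      obtain ⟨e'⟩ := (hU ι F U).2.2 j hj
      have : Finite K := Finite.of_equiv (F j) (e'.symm.trans e).toEquiv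
      exact finite_zero T i n hi hn K y
    · push Not at hpr
      have hfm : ∀ m : ℕ, 0 < m → {j | (m : F j) = 0}.Finite := by
        intro m hm
        refine Set.Finite.subset (Set.Finite.biUnion (m.primeFactors.finite_toSet)
          (t := fun p => {j | CharP (F j) p}) fun p hp => hf p (Nat.prime_of_mem_primeFactors hp))
          ?_
        intro j hj
        obtain ⟨p, hp⟩ := CharP.exists (F j)
        have h1 : p ∣ m := (CharP.cast_eq_zero_iff (F j) p m).mp hj
        refine Set.mem_biUnion (x := p) ?_ hp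
        exact Nat.mem_primeFactors.mpr ⟨CharP.char_is_prime (F j) p, h1, hm.ne'⟩
      have hz := (hU ι F U).2.1 hfm hpr
      have : CharZero K := by
        refine charZero_of_inj_zero fun m hm => ?_
        by_contra hne
        apply hz m (Nat.pos_of_ne_zero hne)
        apply e.injective
        rw [map_natCast, hm, map_zero]
      exact h K y
  · intro h0 E _ _ x
    refine zero_of_rank T i n F hSeq hU h0 E ?_ x
    intro t s hs J
    have := fin_type t
    have : CharZero (Subring.closure (t : Set E)) :=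
      ⟨fun a b hab => by
        have := congrArg Subtype.val hab
        simpa using this⟩
    obtain ⟨N, hN⟩ : ∃ N : ℕ, ∀ j ∈ J, ringChar (F j) ≤ N :=
      ⟨J.sup fun j => ringChar (F j), fun j hj => Finset.le_sup (f := fun j => ringChar (F j)) hj⟩
    obtain ⟨p, hp1, hp2, φ, hφ⟩ := hResp (Subring.closure (t : Set E)) s hs N
    obtain ⟨j, ⟨e⟩⟩ := hF p hp2
    refine ⟨j, fun hj => ?_, (e.symm : ZMod p →+* F j).comp φ, fun h => hφ ?_⟩
    · have h1 := hN j hj
      have h2 : ringChar (F j) = p := by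
        have : CharP (F j) p := by
          have h3 : CharP (ZMod p) p := inferInstance
          exact charP_of_injective_ringHom (f := (e.symm : ZMod p →+* F j)) e.symm.injective p
        exact ringChar.eq (F j) p
      omega
    · exact e.symm.injective (h.trans (map_zero _).symm)

end Pool.Agent.J6H36.PF
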