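import Pool.Agent.J6H36.BSV.Defs3

/-!
# Project PF (helper36): products of finite fields and the Beilinson-Soulé vanishing (hard MP_e2821c_ag, third part)

Goal: `H^i(F, ℚ(n)) = 0` for all fields `F` (for all fields of characteristic 0; `p`) iff `H^i(∏_q 𝔽_q, ℚ(n)) = 0` for the
product of all finite fields (of the prime fields `𝔽_p`, `p` prime; of the finite fields of characteristic `p`), `i ≤ 0 < n`.

The statements `S_...` are the modules; they are independent of each other.
-/

set_option autoImplicit false

universe u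

namespace Pool.Agent.J6H36.PF

open Cardinal Pool.Agent.J6H36.BSV

section ultra

variable {ι : Type u} (F : ι → Type u) [∀ j, CommRing (F j)]

/-- the families which vanish `U`-almost everywhere -/
def IU (U : Filter ι) : Ideal (∀ j, F j) where
  carrier := {r | ∀ᶠ j in U, r j = 0}
  add_mem' := by
    intro a b ha hb
    filter_upwards [ha, hb] with j h1 h2
    rw [Pi.add_apply, h1, h2, add_zero]
  zero_mem' := Filter.Eventually.of_forall fun j => rfl
  smul_mem' := by
    intro c a ha
    filter_upwards [ha] with j h1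
    rw [smul_eq_mul, Pi.mul_apply, h1, mul_zero]

/-- the ultraproduct -/
abbrev KU (U : Filter ι) : Type u := (∀ j, F j) ⧸ IU F U

/-- the restriction to a subset of the index set -/
def resA (A : Set ι) : (∀ j, F j) →+* (∀ j : A, F j) where
  toFun r j := r j
  map_one' := rfl
  map_mul' _ _ := rfl
  map_zero' := rfl
  map_add' _ _ := rfl

end ultra

/-- Module RES: finitely generated domains have many finite residue fields.

Proof.  `S' = Localization.Away s` is a nonzero finitely generated ring (`s ≠ 0` in a domain); let `m` be a maximal ideal, `E = S' ⧸ m`, a field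
which is a finitely generated `ℤ`-algebra.  `ℤ` is a Jacobson ring, so `ℤ → E` is integral with maximal kernel (Zariski's lemma for Jacobson
rings: `finite_of_finite_type_of_isJacobsonRing`, `isJacobsonRing`, `Ideal.isMaximal_comap...`; Mathlib/RingTheory/Jacobson/Ring.lean), so
the kernel is `(p)`, and `E` is finite over `ℤ / p`, so finite.  The image of `s` is a unit. -/
def S_RES : Prop := ∀ (S : Type u) [CommRing S] [IsDomain S] [Algebra.FiniteType ℤ S] (s : S), s ≠ 0 →
  ∃ (E : Type u) (_ : Field E) (_ : Finite E) (φ : S →+* E), φ s ≠ 0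

/-- Module RESP: finitely generated domains of characteristic 0 have homomorphisms to `ℤ / p` for infinitely many `p`.

Proof.  Let `S' = ℚ ⊗ S[1/s]` (or: the localization of `S` at all nonzero multiples `m s^k`, i.e. `Localization.Away s` tensored with
`ℚ`), a nonzero finitely generated `ℚ`-algebra (`ℤ → S` is injective, `S` a domain); a residue field `L` of `S'` at a maximal ideal is a finite extension of `ℚ`
(`finite_of_finite_type_of_isJacobsonRing`).  So there is `ψ : S → L` with `ψ s ≠ 0`.  `L = ℚ(θ)` (primitive element), `θ` may be taken integral, `g ∈ ℤ[X]` its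
minimal polynomial, monic of degree `≥ 1`.  Let `z_1, …, z_r` generate `S`; `ψ z_k = h_k(θ) / D` and `(ψ s)⁻¹ = h_0(θ) / D` with `h_k ∈ ℤ[X]`, `D ≥ 1` an
integer.  The polynomial `g` has a root modulo infinitely many primes (Schur: if only the primes of a finite set `Q` divide values
`g(x)`: when `g(0) = 0` all primes do; otherwise with `a = g(0)`, `g(a M x) = a (1 + M x (…))` with `M = ∏ Q`, and `1 + M x (…)` is not `±1` for some `x`, so it has
a prime divisor not in `Q`).  Take such a prime `p > N` not dividing `D`, and `r` with `g(r) = 0` in `ℤ / p`.  The subring `ℤ[θ][1/D] ≅ (ℤ[X] / g)[1/D]` of `L`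
maps to `ℤ / p` by `θ ↦ r` (`g` monic, so `ℤ[X] / g → L` is injective: `minpoly.isIntegrallyClosed...`), and `ψ` has its values in this subring; `(ψ s)⁻¹` too, so the image of
`s` is a unit. -/
def S_RESP : Prop := ∀ (S : Type u) [CommRing S] [IsDomain S] [CharZero S] [Algebra.FiniteType ℤ S]
  (s : S), s ≠ 0 → ∀ N : ℕ, ∃ p : ℕ, N < p ∧ p.Prime ∧ ∃ φ : S →+* ZMod p, φ s ≠ 0

/-- Module SEQ: a countable domain embeds modulo finite sets into a product.

Proof.  Enumerate the nonzero elements of `S` (countable, `1 ≠ 0`): `s_0, s_1, …` (a surjection `ℕ → {s // s ≠ 0}`).  By recursion choose distinct indices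
`j_0, j_1, …` and `φ_k : S → F (j_k)` with `φ_k (s_0 ⋯ s_k) ≠ 0` (apply the hypothesis to the product, nonzero as `S` is a domain, and
`J = {j_0, …, j_{k-1}}`).  `A = {j_k}` is infinite, and `φ_k s_l = 0` only for `k < l`. -/
def S_SEQ : Prop := ∀ (S : Type u) [CommRing S] [IsDomain S] [Countable S] (ι : Type u) (F : ι → Type u)
  [∀ j, Field (F j)], (∀ s : S, s ≠ 0 → ∀ J : Finset ι, ∃ j ∉ J, ∃ φ : S →+* F j, φ s ≠ 0) →
  ∃ (A : Set ι) (φ : ∀ j : A, S →+* F j), A.Infinite ∧ ∀ s : S, s ≠ 0 → {j : A | φ j s = 0}.Finite

/-- Module FAM: in a family which contains all finite fields of characteristic `p` every finite field of characteristic `p` embeds into infinitely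
many members.

Proof.  `q = #E`.  For `k ≥ 1` let `E_k` be the finite field with `q ^ k` elements (a copy of `GaloisField p (r k)`, `q = p ^ r`, in `Type u` by `ULift`); `E` embeds into `E_k`
(`GaloisField.nonempty_algHom_of_finrank_dvd`, or as the splitting field of `X ^ (q ^ k) - X` over `E`).  `E_k ≅ F (j_k)`, with `j_k` distinct because the
cardinalities are distinct; only finitely many `j_k` are in `J`. -/
def S_FAM : Prop := ∀ (p : ℕ) [Fact p.Prime] (ι : Type u) (F : ι → Type u) [∀ j, Field (F j)],
  (∀ (E : Type u) [Field E] [Finite E] [CharP E p], ∃ j, Nonempty (F j ≃+* E)) →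
  ∀ (E : Type u) [Field E] [Finite E] [CharP E p] (J : Finset ι), ∃ j ∉ J, Nonempty (E →+* F j)

/-- Module LOC: a class over a product which vanishes in the ultraproduct vanishes over the product over some set of the ultrafilter.

Proof.  By `T.lift`, `x = map (closure t → R) y`, `R = ∏ F j`, `t ⊆ R` finite.  `π : R → K_U`.  Let `t̄ = π(t) ⊆ K_U`, `ȳ ∈ H(closure t̄)` the image of `y`; its image in
`H(K_U)` is `map π x = 0`, so by `T.ker` there is a finite `t' ⊆ K_U` with `closure t̄ ≤ closure t'` such that `ȳ` vanishes in `H(closure t')`.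
`B = closure t'` is a finitely generated commutative ring, `B ≅ ℤ[X_1..X_m] ⧸ J`, `J` finitely generated (Noetherian).  Choose `r_1..r_m ∈ R` with
`π r_l = t'_l`; each generator `g` of `J` has `g(r) ∈ IU`, so there is a set `A₁ ∈ U` with `g(r)_j = 0` for all `j ∈ A₁` and all (finitely many) generators `g`.  So
`X ↦ r|_{A₁}` gives `ρ : B → R_{A₁}`.  For `z ∈ t` the elements `ρ(π z)` and `z|_{A₁}` agree on a set of `U` (write `π z` as a polynomial in the `t'_l`:
`z - h(r) ∈ IU`); so after shrinking to `A ∈ U`, `A ⊆ A₁`, the composites `closure t → closure t̄ → B → R_A` and `closure t → R → R_A` agree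
on `t`, so everywhere.  So `map (resA A) x = map ρ (image of ȳ in H(B)) = 0`. -/
def S_LOC : Prop := ∀ (T : Theory.{u}) (i : ℤ) (n : ℕ) (ι : Type u) (F : ι → Type u)
  [∀ j, CommRing (F j)] (U : Filter ι) (x : T.H i n (∀ j, F j)),
  T.map i n (Ideal.Quotient.mk (IU F U)) x = 0 → ∃ A ∈ U, T.map i n (resA F A) x = 0

/-- Module ULT: the ultraproducts.

Proof.  (1) `IU F U` is maximal for an ultrafilter `U`: if `r ∉ IU` then `{j | r j ≠ 0} ∈ U` and `r * r' - 1 ∈ IU` with `r' j = (r j)⁻¹`.
(2) If `U` is not principal and for every prime `p` only finitely many `F j` have characteristic `p`, all of positive characteristic, then `K_U` has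
characteristic 0: for `m ≥ 1` the set `{j | (m : F j) = 0}` is finite (`m` has finitely many prime divisors), so it is not in `U`, so `(m : K_U) ≠ 0`.
(3) If `U` is principal, `{j} ∈ U`, then `r ↦ r j` induces an isomorphism `K_U ≃ F j`. -/
def S_ULT : Prop := ∀ (ι : Type u) (F : ι → Type u) [∀ j, Field (F j)] (U : Ultrafilter ι),
  (IU F U).IsMaximal ∧
  ((∀ m : ℕ, 0 < m → {j | (m : F j) = 0}.Finite) → (∀ j, {j} ∉ U) →
    ∀ m : ℕ, 0 < m → (m : KU F U) ≠ 0) ∧
  ∀ j, {j} ∈ U → Nonempty (KU F U ≃+* F j)

end Pool.Agent.J6H36.PF
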